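import Mathlib

set_option autoImplicit false

/-!
Abel means of the sine series with completely multiplicative signs.
-/

namespace Pool.Agent.Lib.MP_f29d01_nt

open Filter Topology

/-- Completely multiplicative with values in `{1,-1}` on the positive integers. -/
structure CM (b : ℕ → ℝ) : Prop where
  one : b 1 = 1
  pm : ∀ n, 1 ≤ n → b n = 1 ∨ b n = -1
  mul : ∀ m n, 1 ≤ m → 1 ≤ n → b (m * n) = b m * b n

lemma CM.abs_le {b : ℕ → ℝ} (hb : CM b) (n : ℕ) (hn : 1 ≤ n) : |b n| ≤ 1 := by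
  rcases hb.pm n hn with h | h <;> rw [h] <;> simp

/-- flip the sign at the prime `p` -/
noncomputable def flipAt (b : ℕ → ℝ) (p : ℕ) (n : ℕ) : ℝ := b n * (-1) ^ padicValNat p n

lemma flipAt_of_not_dvd (b : ℕ → ℝ) (p n : ℕ) (h : ¬ p ∣ n) : flipAt b p n = b n := by
  unfold flipAt
  rw [padicValNat.eq_zero_of_not_dvd h]
  simp

lemma flipAt_self (b : ℕ → ℝ) (p : ℕ) (hp : p.Prime) : flipAt b p p = - b p := by
  unfold flipAt
  have := Fact.mk hp
  rw [padicValNat_self]
  simp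

lemma CM.flip {b : ℕ → ℝ} (hb : CM b) {p : ℕ} (hp : p.Prime) : CM (flipAt b p) := by
  have := Fact.mk hp
  refine ⟨?_, ?_, ?_⟩
  · unfold flipAt
    simp [hb.one]
  · intro n hn
    unfold flipAt
    rcases neg_one_pow_eq_or ℝ (padicValNat p n) with h | h <;> rcases hb.pm n hn with h' | h' <;>
      rw [h, h'] <;> simp
  · intro m n hm hn
    unfold flipAt
    rw [padicValNat.mul (by omega) (by omega), hb.mul m n hm hn, pow_add]
    ring

/-- the general term of the Abel mean -/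
noncomputable def term (a : ℕ → ℝ) (r t : ℝ) (n : ℕ) : ℝ :=
  a n * (r ^ n * Real.sin (2 * Real.pi * (n : ℝ) * t) / (n : ℝ))

/-- the Abel mean -/
noncomputable def G (a : ℕ → ℝ) (r t : ℝ) : ℝ := ∑' n, term a r t n

lemma abs_term_le {a : ℕ → ℝ} (ha : CM a) {r : ℝ} (hr : 0 ≤ r) (t : ℝ) (n : ℕ) :
    |term a r t n| ≤ r ^ n := by
  unfold term
  rcases Nat.eq_zero_or_pos n with h | h
  · subst h
    simp
  · rw [abs_mul, abs_div, abs_mul, abs_of_nonneg (pow_nonneg hr n)]
    have h1 := ha.abs_le n h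
    have h2 := Real.abs_sin_le_one (2 * Real.pi * (n : ℝ) * t)
    have hn : (1 : ℝ) ≤ (n : ℝ) := by exact_mod_cast h
    have h3 : |(n : ℝ)| = n := abs_of_nonneg (by linarith)
    rw [h3]
    have hrn : 0 ≤ r ^ n := pow_nonneg hr n
    calc |a n| * (r ^ n * |Real.sin (2 * Real.pi * (n : ℝ) * t)| / (n : ℝ))
        ≤ 1 * (r ^ n * 1 / 1) := by
          gcongr
      _ = r ^ n := by ring

lemma summable_term {a : ℕ → ℝ} (ha : CM a) {r : ℝ} (hr : 0 ≤ r) (hr1 : r < 1) (t : ℝ) :
    Summable (term a r t) := by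
  refine Summable.of_norm_bounded (summable_geometric_of_lt_one hr hr1) ?_
  intro n
  rw [Real.norm_eq_abs]
  exact abs_term_le ha hr t n

lemma abs_G_le {a : ℕ → ℝ} (ha : CM a) {r : ℝ} (hr : 0 ≤ r) (hr1 : r < 1) (t : ℝ) :
    |G a r t| ≤ (1 - r)⁻¹ := by
  unfold G
  have h := tsum_of_norm_bounded (hasSum_geometric_of_lt_one hr hr1)
    (f := term a r t) (fun n => by rw [Real.norm_eq_abs]; exact abs_term_le ha hr t n)
  rwa [Real.norm_eq_abs] at h

lemma term_mul {a : ℕ → ℝ} (ha : CM a) {p : ℕ} (hp : p.Prime) (r t : ℝ) (m : ℕ) :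
    term a r t (p * m) = a p / p * term a (r ^ p) (p * t) m := by
  unfold term
  rcases Nat.eq_zero_or_pos m with h | h
  · subst h
    simp
  · rw [ha.mul p m hp.one_le h]
    have hm : (m : ℝ) ≠ 0 := by positivity
    have hp0 : (p : ℝ) ≠ 0 := by
      have := hp.pos
      positivity
    rw [pow_mul]
    push_cast
    have : 2 * Real.pi * ((p : ℝ) * m) * t = 2 * Real.pi * (m : ℝ) * (p * t) := by ring
    rw [this]
    field_simp

/-- the part of the Abel mean over indices coprime to `p` -/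
noncomputable def Gc (p : ℕ) (a : ℕ → ℝ) (r t : ℝ) : ℝ :=
  ∑' n, if p ∣ n then 0 else term a r t n

lemma G_eq {a : ℕ → ℝ} (ha : CM a) {p : ℕ} (hp : p.Prime) {r : ℝ} (hr : 0 ≤ r) (hr1 : r < 1)
    (t : ℝ) : G a r t = Gc p a r t + a p / p * G a (r ^ p) (p * t) := by
  have hs := summable_term ha hr hr1 t
  have h1 : Summable (fun n => if p ∣ n then 0 else term a r t n) := by
    refine Summable.of_norm_bounded (summable_geometric_of_lt_one hr hr1) ?_
    intro n
    rw [Real.norm_eq_abs]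
    split_ifs
    · simp; exact pow_nonneg hr n
    · exact abs_term_le ha hr t n
  have h2 : Summable (fun n => if p ∣ n then term a r t n else 0) := by
    refine Summable.of_norm_bounded (summable_geometric_of_lt_one hr hr1) ?_
    intro n
    rw [Real.norm_eq_abs]
    split_ifs
    · exact abs_term_le ha hr t n
    · simp; exact pow_nonneg hr n
  have h3 : G a r t = Gc p a r t + ∑' n, (if p ∣ n then term a r t n else 0) := by
    unfold G Gc
    rw [← h1.tsum_add h2]
    congr 1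
    funext n
    split_ifs <;> simp
  rw [h3]
  congr 1
  have hinj : Function.Injective (fun m : ℕ => p * m) := by
    intro x y hxy
    exact Nat.eq_of_mul_eq_mul_left hp.pos hxy
  have h4 := hinj.tsum_eq (f := fun n => if p ∣ n then term a r t n else 0) (by
    intro n hn
    rw [Function.mem_support] at hn
    by_cases h : p ∣ n
    · obtain ⟨k, hk⟩ := h
      exact ⟨k, hk.symm⟩
    · simp [h] at hn)
  rw [← h4]
  unfold G
  rw [← tsum_mul_left]
  congr 1
  funext m
  simp only [dvd_mul_right, if_true]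
  exact term_mul ha hp r t m

lemma Gc_flip (b : ℕ → ℝ) (p : ℕ) (r t : ℝ) : Gc p (flipAt b p) r t = Gc p b r t := by
  unfold Gc
  congr 1
  funext n
  split_ifs with h
  · rfl
  · unfold term
    rw [flipAt_of_not_dvd b p n h]

/-- the key relation between the Abel means before and after a flip -/
lemma G_flip {b : ℕ → ℝ} (hb : CM b) {p : ℕ} (hp : p.Prime) (hbp : b p = 1) {r : ℝ}
    (hr : 0 ≤ r) (hr1 : r < 1) (t : ℝ) :
    G (flipAt b p) r t = G b r t - G b (r ^ p) (p * t) / p - G (flipAt b p) (r ^ p) (p * t) / p := by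
  have h1 := G_eq hb hp hr hr1 t
  have h2 := G_eq (hb.flip hp) hp hr hr1 t
  rw [Gc_flip, flipAt_self b p hp, hbp] at h2
  rw [hbp] at h1
  rw [h2, h1]
  ring

lemma pow_mem {r : ℝ} (hr : 0 ≤ r) (hr1 : r < 1) {p : ℕ} (hp : p.Prime) :
    0 ≤ r ^ p ∧ r ^ p < 1 ∧ r ^ p ≤ r := by
  refine ⟨pow_nonneg hr p, pow_lt_one₀ hr hr1 hp.ne_zero, ?_⟩
  calc r ^ p ≤ r ^ 1 := pow_le_pow_of_le_one hr hr1.le hp.one_le
    _ = r := pow_one r

lemma G_flip_bound {b : ℕ → ℝ} (hb : CM b) {p : ℕ} (hp : p.Prime) (hbp : b p = 1) {M : ℝ}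
    (hM : ∀ r t : ℝ, 0 ≤ r → r < 1 → |G b r t| ≤ M) (r t : ℝ) (hr : 0 ≤ r) (hr1 : r < 1) :
    |G (flipAt b p) r t| ≤ M * ((p + 1) / (p - 1)) := by
  have hp2 : (2 : ℝ) ≤ p := by exact_mod_cast hp.two_le
  have hp0 : (0 : ℝ) < p := by linarith
  set C : ℝ := (1 - r)⁻¹ with hC
  have hC0 : 0 ≤ C := inv_nonneg.mpr (by linarith)
  set M' : ℝ := M * ((p + 1) / (p - 1)) with hM'
  have hMM : (1 + 1 / p) * M + M' / p = M' := by
    rw [hM']
    have : (p : ℝ) - 1 ≠ 0 := by linarith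
    field_simp
    ring
  have hM0 : 0 ≤ M := le_trans (abs_nonneg _) (hM 0 0 le_rfl (by norm_num))
  have hM'0 : 0 ≤ M' := by
    rw [hM']
    apply mul_nonneg hM0
    apply div_nonneg <;> linarith
  have key : ∀ m : ℕ, ∀ ρ s : ℝ, 0 ≤ ρ → ρ ≤ r → |G (flipAt b p) ρ s| ≤ M' + C / (p : ℝ) ^ m := by
    intro m
    induction m with
    | zero =>
      intro ρ s h0 h1
      have h2 := abs_G_le (hb.flip hp) h0 (lt_of_le_of_lt h1 hr1) s
      have h3 : (1 - ρ)⁻¹ ≤ C := by
        rw [hC]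
        apply inv_anti₀ <;> linarith
      simp only [pow_zero, div_one]
      linarith
    | succ m ih =>
      intro ρ s h0 h1
      have hρ1 : ρ < 1 := lt_of_le_of_lt h1 hr1
      obtain ⟨q0, q1, q2⟩ := pow_mem h0 hρ1 hp
      rw [G_flip hb hp hbp h0 hρ1 s]
      have e1 := hM ρ s h0 hρ1
      have e2 := hM (ρ ^ p) (p * s) q0 q1
      have e3 := ih (ρ ^ p) (p * s) q0 (le_trans q2 h1)
      have e4 : |G b ρ s - G b (ρ ^ p) (p * s) / p - G (flipAt b p) (ρ ^ p) (p * s) / p|
          ≤ |G b ρ s| + |G b (ρ ^ p) (p * s)| / p + |G (flipAt b p) (ρ ^ p) (p * s)| / p := by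
        calc |G b ρ s - G b (ρ ^ p) (p * s) / p - G (flipAt b p) (ρ ^ p) (p * s) / p|
            ≤ |G b ρ s - G b (ρ ^ p) (p * s) / p| + |G (flipAt b p) (ρ ^ p) (p * s) / p| :=
              abs_sub _ _
          _ ≤ |G b ρ s| + |G b (ρ ^ p) (p * s) / p| + |G (flipAt b p) (ρ ^ p) (p * s) / p| := by
              have := abs_sub (G b ρ s) (G b (ρ ^ p) (p * s) / p)
              linarith
          _ = _ := by
              rw [abs_div, abs_div, abs_of_pos hp0]
      have e5 : |G b (ρ ^ p) (p * s)| / p ≤ M / p := by gcongr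
      have e6 : |G (flipAt b p) (ρ ^ p) (p * s)| / p ≤ (M' + C / (p : ℝ) ^ m) / p := by gcongr
      have e7 : (M' + C / (p : ℝ) ^ m) / p = M' / p + C / (p : ℝ) ^ (m + 1) := by
        rw [add_div, div_div, ← pow_succ]
      have e8 : (1 + 1 / (p : ℝ)) * M = M + M / p := by ring
      linarith
  have hlim : Tendsto (fun m : ℕ => M' + C / (p : ℝ) ^ m) atTop (𝓝 (M' + 0)) := by
    apply Tendsto.const_add
    apply Tendsto.div_atTop tendsto_const_nhds
    exact tendsto_pow_atTop_atTop_of_one_lt (by linarith)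
  rw [add_zero] at hlim
  exact ge_of_tendsto' hlim (fun m => key m r t hr le_rfl)

end Pool.Agent.Lib.MP_f29d01_nt
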