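import Mathlib
import Pool.Agent.Lib.MP_f29d01_nt.Abel

set_option autoImplicit false

namespace Pool.Agent.Lib.MP_f29d01_nt

open Filter Topology

/-- the constant function one -/
noncomputable def one1 (_ : ℕ) : ℝ := 1

lemma CM_one : CM one1 := by
  refine ⟨rfl, fun n _ => Or.inl rfl, fun m n _ _ => ?_⟩
  simp [one1]

lemma G_one_eq {r : ℝ} (hr : 0 ≤ r) (hr1 : r < 1) (t : ℝ) :
    G one1 r t = - (1 - (r : ℂ) * Complex.exp (2 * Real.pi * t * Complex.I)).arg := by
  set z : ℂ := (r : ℂ) * Complex.exp (2 * Real.pi * t * Complex.I) with hz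
  have hexp : ‖Complex.exp (2 * Real.pi * t * Complex.I)‖ = 1 := by
    have : (2 * Real.pi * t * Complex.I : ℂ) = ((2 * Real.pi * t : ℝ) : ℂ) * Complex.I := by
      push_cast; ring
    rw [this, Complex.norm_exp_ofReal_mul_I]
  have hzn : ‖z‖ < 1 := by
    rw [hz, norm_mul, hexp, Complex.norm_real, Real.norm_eq_abs, abs_of_nonneg hr, mul_one]
    exact hr1
  have h := Complex.hasSum_taylorSeries_neg_log hzn
  have him := Complex.hasSum_im h
  have h2 : (-Complex.log (1 - z)).im = - (1 - z).arg := by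
    rw [Complex.neg_im, Complex.log_im]
  rw [h2] at him
  rw [← him.tsum_eq]
  unfold G
  congr 1
  funext n
  unfold term one1
  have h3 : z ^ n = ((r ^ n : ℝ) : ℂ) * Complex.exp (((2 * Real.pi * n * t : ℝ) : ℂ) * Complex.I) := by
    rw [hz, mul_pow, ← Complex.exp_nat_mul]
    push_cast
    congr 2
    ring
  rw [h3, Complex.exp_mul_I]
  have h4 : ((((r ^ n : ℝ) : ℂ) * (Complex.cos ((2 * Real.pi * n * t : ℝ) : ℂ) +
      Complex.sin ((2 * Real.pi * n * t : ℝ) : ℂ) * Complex.I)) / (n : ℂ)) =
      ((r ^ n * Real.cos (2 * Real.pi * n * t) / n : ℝ) : ℂ) +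
      ((r ^ n * Real.sin (2 * Real.pi * n * t) / n : ℝ) : ℂ) * Complex.I := by
    push_cast
    ring
  rw [h4]
  simp only [Complex.add_im, Complex.ofReal_im, Complex.mul_im, Complex.ofReal_re, Complex.I_re,
    Complex.I_im, mul_zero, mul_one, zero_add, one_mul, add_zero]

lemma abs_G_one_le (r t : ℝ) (hr : 0 ≤ r) (hr1 : r < 1) : |G one1 r t| ≤ Real.pi / 2 := by
  rw [G_one_eq hr hr1, abs_neg]
  apply le_of_lt
  rw [Complex.abs_arg_lt_pi_div_two_iff]
  left
  have : (2 * Real.pi * t * Complex.I : ℂ) = ((2 * Real.pi * t : ℝ) : ℂ) * Complex.I := by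
    push_cast; ring
  rw [this, Complex.exp_mul_I]
  simp only [Complex.sub_re, Complex.one_re, Complex.mul_re, Complex.ofReal_re, Complex.add_re,
    Complex.ofReal_im, zero_mul, sub_zero, Complex.I_re, Complex.I_im]
  rw [← Complex.ofReal_cos, ← Complex.ofReal_sin]
  simp only [Complex.ofReal_re, Complex.ofReal_im, mul_zero, mul_one, sub_zero]
  have h1 := Real.cos_le_one (2 * Real.pi * t)
  have h2 : r * Real.cos (2 * Real.pi * t) ≤ r * 1 := by gcongr
  linarith

/-- the sawtooth function with the midpoint convention -/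
noncomputable def s1 (x : ℝ) : ℝ := if Int.fract x = 0 then 0 else 1 / 2 - Int.fract x

lemma arg_lim {x : ℝ} (h0 : 0 < x) (h1 : x < 1) :
    (1 - Complex.exp (2 * Real.pi * x * Complex.I)).arg = Real.pi * (x - 1 / 2) := by
  have hs : 0 < Real.sin (Real.pi * x) := by
    apply Real.sin_pos_of_pos_of_lt_pi
    · positivity
    · nlinarith [Real.pi_pos]
  have key : (1 - Complex.exp (2 * Real.pi * x * Complex.I)) =
      ((2 * Real.sin (Real.pi * x) : ℝ) : ℂ) *
      (Complex.cos ((Real.pi * (x - 1 / 2) : ℝ) : ℂ) +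
        Complex.sin ((Real.pi * (x - 1 / 2) : ℝ) : ℂ) * Complex.I) := by
    have e1 : (2 * Real.pi * x * Complex.I : ℂ) = ((2 * (Real.pi * x) : ℝ) : ℂ) * Complex.I := by
      push_cast; ring
    rw [e1, Complex.exp_mul_I]
    rw [← Complex.ofReal_cos, ← Complex.ofReal_sin, ← Complex.ofReal_cos, ← Complex.ofReal_sin]
    have c1 : Real.cos (Real.pi * (x - 1 / 2)) = Real.sin (Real.pi * x) := by
      have : Real.pi * (x - 1 / 2) = Real.pi * x - Real.pi / 2 := by ring
      rw [this, Real.cos_sub_pi_div_two]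
    have c2 : Real.sin (Real.pi * (x - 1 / 2)) = - Real.cos (Real.pi * x) := by
      have : Real.pi * (x - 1 / 2) = Real.pi * x - Real.pi / 2 := by ring
      rw [this, Real.sin_sub_pi_div_two]
    rw [c1, c2, Real.cos_two_mul, Real.sin_two_mul]
    have hsc := Real.sin_sq_add_cos_sq (Real.pi * x)
    generalize Real.sin (Real.pi * x) = S at *
    generalize Real.cos (Real.pi * x) = C at *
    apply Complex.ext
    · simp only [Complex.sub_re, Complex.one_re, Complex.add_re, Complex.ofReal_re,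
          Complex.mul_re, Complex.I_re, Complex.I_im, Complex.ofReal_im, mul_zero, mul_one,
          sub_zero, add_zero, zero_mul]
      nlinarith
    · simp only [Complex.sub_im, Complex.one_im, Complex.add_im, Complex.ofReal_re,
          Complex.mul_im, Complex.mul_re, Complex.add_re, Complex.I_re, Complex.I_im,
          Complex.ofReal_im, mul_zero, mul_one,
          sub_zero, add_zero, zero_mul, zero_add]
      ring
  rw [key]
  rw [Complex.arg_mul_cos_add_sin_mul_I (by positivity)]
  constructor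
  · nlinarith [Real.pi_pos]
  · nlinarith [Real.pi_pos]

lemma exp_fract (x : ℝ) : Complex.exp (2 * Real.pi * x * Complex.I) =
    Complex.exp (2 * Real.pi * (Int.fract x : ℝ) * Complex.I) := by
  have h : (x : ℂ) = ((Int.fract x : ℝ) : ℂ) + ((⌊x⌋ : ℤ) : ℂ) := by
    have := Int.fract_add_floor x
    exact_mod_cast this.symm
  conv_lhs => rw [h]
  have e : (2 * Real.pi * (((Int.fract x : ℝ) : ℂ) + ((⌊x⌋ : ℤ) : ℂ)) * Complex.I : ℂ) =
      2 * Real.pi * (Int.fract x : ℝ) * Complex.I + (⌊x⌋ : ℤ) * (2 * Real.pi * Complex.I) := by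
    ring
  rw [e, Complex.exp_add, Complex.exp_int_mul_two_pi_mul_I, mul_one]

lemma tendsto_G_one (x : ℝ) : Tendsto (fun r => G one1 r x) (𝓝[<] 1) (𝓝 (Real.pi * s1 x)) := by
  have hmem : ∀ᶠ r : ℝ in 𝓝[<] 1, 0 ≤ r ∧ r < 1 := by
    have h1 : Set.Ico (0 : ℝ) 1 ∈ 𝓝[<] (1 : ℝ) := Ico_mem_nhdsLT (by norm_num)
    filter_upwards [h1] with r hr
    exact ⟨hr.1, hr.2⟩
  by_cases hx : Int.fract x = 0
  · have hs : s1 x = 0 := by unfold s1; simp [hx]
    rw [hs, mul_zero]
    refine Tendsto.congr' ?_ tendsto_const_nhds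
    filter_upwards [hmem] with r hr
    rw [G_one_eq hr.1 hr.2, exp_fract, hx]
    simp only [Complex.ofReal_zero, mul_zero, zero_mul, Complex.exp_zero, mul_one]
    have : (1 - (r : ℂ)) = ((1 - r : ℝ) : ℂ) := by push_cast; ring
    rw [this, Complex.arg_ofReal_of_nonneg (by linarith [hr.2])]
    simp
  · have hs : s1 x = 1 / 2 - Int.fract x := by unfold s1; simp [hx]
    have h0 : 0 < Int.fract x := lt_of_le_of_ne (Int.fract_nonneg x) (Ne.symm hx)
    have h1 : Int.fract x < 1 := Int.fract_lt_one x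
    have hval : Real.pi * s1 x =
        - (1 - ((1 : ℝ) : ℂ) * Complex.exp (2 * Real.pi * x * Complex.I)).arg := by
      rw [exp_fract, Complex.ofReal_one, one_mul, arg_lim h0 h1, hs]
      ring
    rw [hval]
    have hcont : Tendsto (fun r : ℝ => - (1 - (r : ℂ) * Complex.exp (2 * Real.pi * x * Complex.I)).arg)
        (𝓝[<] 1) (𝓝 (- (1 - ((1 : ℝ) : ℂ) * Complex.exp (2 * Real.pi * x * Complex.I)).arg)) := by
      apply Tendsto.neg
      have hslit : (1 - ((1 : ℝ) : ℂ) * Complex.exp (2 * Real.pi * x * Complex.I)) ∈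
          Complex.slitPlane := by
        rw [Complex.mem_slitPlane_iff]
        left
        rw [exp_fract, Complex.ofReal_one, one_mul]
        have e1 : (2 * Real.pi * (Int.fract x : ℝ) * Complex.I : ℂ) =
            ((2 * (Real.pi * Int.fract x) : ℝ) : ℂ) * Complex.I := by
          push_cast; ring
        rw [e1, Complex.exp_mul_I, ← Complex.ofReal_cos, ← Complex.ofReal_sin]
        simp only [Complex.sub_re, Complex.one_re, Complex.add_re, Complex.ofReal_re,
          Complex.mul_re, Complex.I_re, Complex.I_im, Complex.ofReal_im, mul_zero, mul_one,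
          sub_zero, add_zero]
        have hs : 0 < Real.sin (Real.pi * Int.fract x) := by
          apply Real.sin_pos_of_pos_of_lt_pi
          · positivity
          · nlinarith [Real.pi_pos]
        rw [Real.cos_two_mul]
        have := Real.sin_sq_add_cos_sq (Real.pi * Int.fract x)
        nlinarith
      have hc : ContinuousAt (fun r : ℝ => (1 - (r : ℂ) * Complex.exp (2 * Real.pi * x * Complex.I)).arg) 1 := by
        apply ContinuousAt.comp (f := fun r : ℝ => (1 - (r : ℂ) * Complex.exp (2 * Real.pi * x * Complex.I)))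
          (g := Complex.arg)
        · exact Complex.continuousAt_arg hslit
        · fun_prop
      exact hc.tendsto.mono_left nhdsWithin_le_nhds
    refine Tendsto.congr' ?_ hcont
    filter_upwards [hmem] with r hr
    rw [G_one_eq hr.1 hr.2]

lemma neg_s1_le (x : ℝ) : - s1 x ≤ x - ⌈x⌉ + 1 / 2 := by
  unfold s1
  split_ifs with h
  · have h1 : x = ⌊x⌋ := by
      have := Int.fract_add_floor x
      linarith
    have h2 : (⌈x⌉ : ℝ) = x := by
      rw [h1, Int.ceil_intCast]
    rw [h2]
    norm_num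
  · have h1 : (⌈x⌉ : ℝ) ≤ ⌊x⌋ + 1 := by exact_mod_cast Int.ceil_le_floor_add_one x
    have := Int.fract_add_floor x
    linarith

lemma neg_s1_le_half (x : ℝ) : - s1 x ≤ 1 / 2 := by
  have h := neg_s1_le x
  have := Int.le_ceil x
  linarith

end Pool.Agent.Lib.MP_f29d01_nt
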