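import Mathlib
import Pool.Agent.Lib.MP_f29d01_nt.Saw

set_option autoImplicit false

namespace Pool.Agent.Lib.MP_f29d01_nt

open Filter Topology

/-- first-order approximation of the Abel mean -/
noncomputable def Lin (l : List ℕ) (r t : ℝ) : ℝ :=
  G one1 r t - (l.map (fun p : ℕ => 2 / (p : ℝ) * G one1 (r ^ p) (p * t))).sum

/-- the data carried along the flips -/
structure Bd (b : ℕ → ℝ) (l : List ℕ) (m δ D : ℝ) : Prop where
  cm : CM b
  hp : ∀ p : ℕ, p.Prime → p ∉ l → b p = 1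
  hl : ∀ p ∈ l, Nat.Prime p
  hM : ∀ r t : ℝ, 0 ≤ r → r < 1 → |G b r t| ≤ Real.pi * m
  hδ : ∀ r t : ℝ, 0 ≤ r → r < 1 → |G b r t - G one1 r t| ≤ Real.pi * δ
  hD : ∀ r t : ℝ, 0 ≤ r → r < 1 → |G b r t - Lin l r t| ≤ Real.pi * D

lemma Bd.base : Bd one1 [] (1 / 2) 0 0 := by
  refine ⟨CM_one, fun _ _ _ => rfl, by simp, ?_, ?_, ?_⟩
  · intro r t h0 h1
    have := abs_G_one_le r t h0 h1
    linarith
  · intro r t _ _
    simp
  · intro r t _ _
    simp [Lin]

lemma Bd.step {b : ℕ → ℝ} {l : List ℕ} {m δ D : ℝ} (h : Bd b l m δ D) {p : ℕ} (hp : p.Prime)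
    (hpl : p ∉ l) :
    Bd (flipAt b p) (p :: l) (m * ((p + 1) / (p - 1))) (δ + (m + m * ((p + 1) / (p - 1))) / p)
      (D + (δ + (δ + (m + m * ((p + 1) / (p - 1))) / p)) / p) := by
  have hbp : b p = 1 := h.hp p hp hpl
  have hp0 : (0 : ℝ) < p := by exact_mod_cast hp.pos
  have hM' : ∀ r t : ℝ, 0 ≤ r → r < 1 →
      |G (flipAt b p) r t| ≤ Real.pi * (m * ((p + 1) / (p - 1))) := by
    intro r t h0 h1
    have := G_flip_bound h.cm hp hbp h.hM r t h0 h1
    rwa [mul_assoc] at this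
  have hδ' : ∀ r t : ℝ, 0 ≤ r → r < 1 → |G (flipAt b p) r t - G one1 r t| ≤
      Real.pi * (δ + (m + m * ((p + 1) / (p - 1))) / p) := by
    intro r t h0 h1
    obtain ⟨q0, q1, q2⟩ := pow_mem h0 h1 hp
    rw [G_flip h.cm hp hbp h0 h1 t]
    have e1 := h.hδ r t h0 h1
    have e2 := h.hM (r ^ p) (p * t) q0 q1
    have e3 := hM' (r ^ p) (p * t) q0 q1
    have e4 : |G b r t - G b (r ^ p) (p * t) / p - G (flipAt b p) (r ^ p) (p * t) / p - G one1 r t|
        ≤ |G b r t - G one1 r t| + |G b (r ^ p) (p * t)| / p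
          + |G (flipAt b p) (r ^ p) (p * t)| / p := by
      have f1 : G b r t - G b (r ^ p) (p * t) / p - G (flipAt b p) (r ^ p) (p * t) / p - G one1 r t
          = (G b r t - G one1 r t) - G b (r ^ p) (p * t) / p
            - G (flipAt b p) (r ^ p) (p * t) / p := by ring
      rw [f1]
      have f2 := abs_sub ((G b r t - G one1 r t) - G b (r ^ p) (p * t) / p)
        (G (flipAt b p) (r ^ p) (p * t) / p)
      have f3 := abs_sub (G b r t - G one1 r t) (G b (r ^ p) (p * t) / p)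
      rw [abs_div, abs_of_pos hp0] at f3
      have f4 : |G (flipAt b p) (r ^ p) (p * t) / p| = |G (flipAt b p) (r ^ p) (p * t)| / p := by
        rw [abs_div, abs_of_pos hp0]
      linarith
    have e5 : |G b (r ^ p) (p * t)| / p ≤ Real.pi * m / p := by gcongr
    have e6 : |G (flipAt b p) (r ^ p) (p * t)| / p ≤
        Real.pi * (m * ((p + 1) / (p - 1))) / p := by gcongr
    have e7 : Real.pi * (δ + (m + m * ((p + 1) / (p - 1))) / p) = Real.pi * δ + Real.pi * m / p
        + Real.pi * (m * ((p + 1) / (p - 1))) / p := by ring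
    rw [e7]
    linarith
  refine ⟨h.cm.flip hp, ?_, ?_, hM', hδ', ?_⟩
  · intro q hq hql
    have hqp : q ≠ p := fun e => hql (by simp [e])
    have hql' : q ∉ l := fun e => hql (by simp [e])
    rw [flipAt_of_not_dvd]
    · exact h.hp q hq hql'
    · intro hd
      exact hqp ((Nat.prime_dvd_prime_iff_eq hp hq).mp hd).symm
  · intro q hq
    rcases List.mem_cons.mp hq with e | e
    · rw [e]; exact hp
    · exact h.hl q e
  · intro r t h0 h1
    obtain ⟨q0, q1, q2⟩ := pow_mem h0 h1 hp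
    rw [G_flip h.cm hp hbp h0 h1 t]
    have e1 := h.hD r t h0 h1
    have e2 := h.hδ (r ^ p) (p * t) q0 q1
    have e3 := hδ' (r ^ p) (p * t) q0 q1
    have e0 : Lin (p :: l) r t = Lin l r t - 2 / (p : ℝ) * G one1 (r ^ p) (p * t) := by
      unfold Lin
      rw [List.map_cons, List.sum_cons]
      ring
    rw [e0]
    have f1 : G b r t - G b (r ^ p) (p * t) / p - G (flipAt b p) (r ^ p) (p * t) / p -
        (Lin l r t - 2 / (p : ℝ) * G one1 (r ^ p) (p * t))
        = (G b r t - Lin l r t) - (G b (r ^ p) (p * t) - G one1 (r ^ p) (p * t)) / p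
          - (G (flipAt b p) (r ^ p) (p * t) - G one1 (r ^ p) (p * t)) / p := by ring
    rw [f1]
    have f2 := abs_sub ((G b r t - Lin l r t) - (G b (r ^ p) (p * t) - G one1 (r ^ p) (p * t)) / p)
      ((G (flipAt b p) (r ^ p) (p * t) - G one1 (r ^ p) (p * t)) / p)
    have f3 := abs_sub (G b r t - Lin l r t) ((G b (r ^ p) (p * t) - G one1 (r ^ p) (p * t)) / p)
    have f4 : |(G (flipAt b p) (r ^ p) (p * t) - G one1 (r ^ p) (p * t)) / p| ≤
        Real.pi * (δ + (m + m * ((p + 1) / (p - 1))) / p) / p := by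
      rw [abs_div, abs_of_pos hp0]
      gcongr
    have f5 : |(G b (r ^ p) (p * t) - G one1 (r ^ p) (p * t)) / p| ≤ Real.pi * δ / p := by
      rw [abs_div, abs_of_pos hp0]
      gcongr
    have e7 : Real.pi * (D + (δ + (δ + (m + m * ((p + 1) / (p - 1))) / p)) / p) =
        Real.pi * D + Real.pi * δ / p
        + Real.pi * (δ + (m + m * ((p + 1) / (p - 1))) / p) / p := by ring
    rw [e7]
    linarith

lemma tendsto_pow_left (p : ℕ) (hp : p ≠ 0) :
    Tendsto (fun r : ℝ => r ^ p) (𝓝[<] 1) (𝓝[<] 1) := by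
  apply tendsto_nhdsWithin_of_tendsto_nhds_of_eventually_within
  · have : Tendsto (fun r : ℝ => r ^ p) (𝓝 1) (𝓝 (1 ^ p)) := (continuous_pow p).tendsto 1
    rw [one_pow] at this
    exact this.mono_left nhdsWithin_le_nhds
  · have h1 : Set.Ico (0 : ℝ) 1 ∈ 𝓝[<] (1 : ℝ) := Ico_mem_nhdsLT (by norm_num)
    filter_upwards [h1] with r hr
    exact pow_lt_one₀ hr.1 hr.2 hp

lemma tendsto_Lin (l : List ℕ) (hl : ∀ p ∈ l, Nat.Prime p) (t : ℝ) :
    Tendsto (fun r => Lin l r t) (𝓝[<] 1)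
      (𝓝 (Real.pi * (s1 t - (l.map (fun p : ℕ => 2 / (p : ℝ) * s1 (p * t))).sum))) := by
  induction l with
  | nil =>
    simp only [Lin, List.map_nil, List.sum_nil, sub_zero]
    exact tendsto_G_one t
  | cons p l ih =>
    have ih' := ih (fun q hq => hl q (by simp [hq]))
    have hp : Nat.Prime p := hl p (by simp)
    have h2 : Tendsto (fun r : ℝ => G one1 (r ^ p) (p * t)) (𝓝[<] 1)
        (𝓝 (Real.pi * s1 (p * t))) :=
      (tendsto_G_one (p * t)).comp (tendsto_pow_left p hp.ne_zero)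
    have h3 := ih'.sub (h2.const_mul (2 / (p : ℝ)))
    have e : Real.pi * (s1 t - ((p :: l).map (fun p : ℕ => 2 / (p : ℝ) * s1 (p * t))).sum) =
        Real.pi * (s1 t - (l.map (fun p : ℕ => 2 / (p : ℝ) * s1 (p * t))).sum) -
        2 / (p : ℝ) * (Real.pi * s1 (p * t)) := by
      rw [List.map_cons, List.sum_cons]
      ring
    rw [e]
    refine h3.congr ?_
    intro r
    unfold Lin
    rw [List.map_cons, List.sum_cons]
    ring

/-- upper bound for the sum of the series -/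
lemma upper {b : ℕ → ℝ} {l : List ℕ} {m δ D : ℝ} (h : Bd b l m δ D) {t L : ℝ}
    (hL : Tendsto (fun N : ℕ => (1 / Real.pi) *
      ∑ n ∈ Finset.Icc 1 N, b n * Real.sin (2 * Real.pi * (n : ℝ) * t) / (n : ℝ)) atTop (𝓝 L)) :
    L ≤ s1 t - (l.map (fun p : ℕ => 2 / (p : ℝ) * s1 (p * t))).sum + D := by
  set f : ℕ → ℝ := fun n => b n * Real.sin (2 * Real.pi * (n : ℝ) * t) / (n : ℝ) with hf
  have hpi := Real.pi_pos
  have h1 : Tendsto (fun N : ℕ => ∑ n ∈ Finset.Icc 1 N, f n) atTop (𝓝 (Real.pi * L)) := by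
    have := hL.const_mul Real.pi
    refine this.congr ?_
    intro N
    rw [← mul_assoc, mul_one_div_cancel hpi.ne', one_mul]
  have h2 : Tendsto (fun N : ℕ => ∑ n ∈ Finset.range N, f n) atTop (𝓝 (Real.pi * L)) := by
    rw [← tendsto_add_atTop_iff_nat 1]
    refine h1.congr ?_
    intro N
    rw [Finset.range_eq_Ico, Finset.sum_eq_sum_Ico_succ_bot (by omega)]
    have : f 0 = 0 := by simp [hf]
    rw [this, zero_add]
    rfl
  have h3 := Real.tendsto_tsum_powerSeries_nhdsWithin_lt h2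
  have h4 : ∀ x : ℝ, ∑' n, f n * x ^ n = G b x t := by
    intro x
    unfold G
    congr 1
    funext n
    simp only [hf, term]
    ring
  simp only [h4] at h3
  have h5 := (tendsto_Lin l h.hl t).add_const (Real.pi * D)
  have h6 : Real.pi * L ≤ Real.pi * (s1 t - (l.map (fun p : ℕ => 2 / (p : ℝ) * s1 (p * t))).sum)
      + Real.pi * D := by
    refine le_of_tendsto_of_tendsto h3 h5 ?_
    have h1 : Set.Ico (0 : ℝ) 1 ∈ 𝓝[<] (1 : ℝ) := Ico_mem_nhdsLT (by norm_num)
    filter_upwards [h1] with r hr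
    have := h.hD r t hr.1 hr.2
    have := le_abs_self (G b r t - Lin l r t)
    linarith
  have h7 : Real.pi * L ≤ Real.pi *
      (s1 t - (l.map (fun p : ℕ => 2 / (p : ℝ) * s1 (p * t))).sum + D) := by
    rw [mul_add]; exact h6
  exact le_of_mul_le_mul_left h7 hpi

end Pool.Agent.Lib.MP_f29d01_nt
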