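import Mathlib
import Pool.Agent.Lib.MP_f29d01_nt.Main

set_option autoImplicit false

namespace Pool.Agent.Lib.MP_f29d01_nt

open Filter Topology

/-- the seven primes at which the sign is `-1` -/
def F : List ℕ := [2003, 13469, 17137, 18713, 36761, 54371, 54709]

def dd (q n p : ℕ) : ℕ := (p * n + q - 1) / q

/-- one instance of the finite check, all denominators cleared -/
def chk (q n : ℕ) : Bool :=
  Nat.ble (1000000 * 13 * n * 946036582770655508513814902393 + q * 946036582770655508513814902393 + 1000000 * q * (472309826645359714684880131 + 70238071331996102792621197 + 55204328807297397940935689 + 50555046372610244670219361 + 25734789118104934809004513 + 17399653910552601727277683 + 17292156368616781672372277))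
    (1000000 * q * (2 * dd q n 2003 * 472309826645359714684880131 + 2 * dd q n 13469 * 70238071331996102792621197 + 2 * dd q n 17137 * 55204328807297397940935689 + 2 * dd q n 18713 * 50555046372610244670219361 + 2 * dd q n 36761 * 25734789118104934809004513 + 2 * dd q n 54371 * 17399653910552601727277683 + 2 * dd q n 54709 * 17292156368616781672372277))

set_option maxRecDepth 100000 in
lemma chk_all : (F.all fun q => (List.range 42).all fun n => chk q (n + 1)) = true := by
  decide +kernel


lemma chk_mem {q n : ℕ} (hq : q ∈ F) (hn1 : 1 ≤ n) (hn : n ≤ 42) : chk q n = true := by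
  have h := chk_all
  rw [List.all_eq_true] at h
  have h2 := h q hq
  rw [List.all_eq_true] at h2
  have h3 := h2 (n - 1) (by rw [List.mem_range]; omega)
  rwa [Nat.sub_add_cancel hn1] at h3


lemma real_ineq (n q x1 x2 x3 x4 x5 x6 x7 : ℝ) (hq : 0 < q)
    (h : 1000000 * 13 * n * 946036582770655508513814902393 + q * 946036582770655508513814902393 + 1000000 * q * (472309826645359714684880131 + 70238071331996102792621197 + 55204328807297397940935689 + 50555046372610244670219361 + 25734789118104934809004513 + 17399653910552601727277683 + 17292156368616781672372277) ≤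
      1000000 * q * (2 * x1 * 472309826645359714684880131 + 2 * x2 * 70238071331996102792621197 + 2 * x3 * 55204328807297397940935689 + 2 * x4 * 50555046372610244670219361 + 2 * x5 * 25734789118104934809004513 + 2 * x6 * 17399653910552601727277683 + 2 * x7 * 17292156368616781672372277)) :
    13 * (n / q) - ((2 * x1 - 1) / 2003 + (2 * x2 - 1) / 13469 + (2 * x3 - 1) / 17137 + (2 * x4 - 1) / 18713 + (2 * x5 - 1) / 36761 + (2 * x6 - 1) / 54371 + (2 * x7 - 1) / 54709) ≤ - (1 / 1000000) := by
  have key : 13 * (n / q) - ((2 * x1 - 1) / 2003 + (2 * x2 - 1) / 13469 + (2 * x3 - 1) / 17137 + (2 * x4 - 1) / 18713 + (2 * x5 - 1) / 36761 + (2 * x6 - 1) / 54371 + (2 * x7 - 1) / 54709) + 1 / 1000000 =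
      (1000000 * 13 * n * 946036582770655508513814902393 + q * 946036582770655508513814902393 + 1000000 * q * (472309826645359714684880131 + 70238071331996102792621197 + 55204328807297397940935689 + 50555046372610244670219361 + 25734789118104934809004513 + 17399653910552601727277683 + 17292156368616781672372277) -
      1000000 * q * (2 * x1 * 472309826645359714684880131 + 2 * x2 * 70238071331996102792621197 + 2 * x3 * 55204328807297397940935689 + 2 * x4 * 50555046372610244670219361 + 2 * x5 * 25734789118104934809004513 + 2 * x6 * 17399653910552601727277683 + 2 * x7 * 17292156368616781672372277)) / (1000000 * q * 946036582770655508513814902393) := by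
    field_simp
    ring
  have h2 : (1000000 * 13 * n * 946036582770655508513814902393 + q * 946036582770655508513814902393 + 1000000 * q * (472309826645359714684880131 + 70238071331996102792621197 + 55204328807297397940935689 + 50555046372610244670219361 + 25734789118104934809004513 + 17399653910552601727277683 + 17292156368616781672372277) -
      1000000 * q * (2 * x1 * 472309826645359714684880131 + 2 * x2 * 70238071331996102792621197 + 2 * x3 * 55204328807297397940935689 + 2 * x4 * 50555046372610244670219361 + 2 * x5 * 25734789118104934809004513 + 2 * x6 * 17399653910552601727277683 + 2 * x7 * 17292156368616781672372277)) / (1000000 * q * 946036582770655508513814902393) ≤ 0 := by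
    apply div_nonpos_of_nonpos_of_nonneg
    · linarith
    · positivity
  linarith


lemma neg_s1_le' (x : ℝ) (k : ℕ) (hk : (k : ℝ) < x + 1) : - s1 x ≤ x - k + 1 / 2 := by
  have h := neg_s1_le x
  have h2 : (k : ℤ) ≤ ⌈x⌉ := by
    rw [Int.le_ceil_iff]
    push_cast
    linarith
  have h3 : (k : ℝ) ≤ (⌈x⌉ : ℝ) := by exact_mod_cast h2
  linarith

lemma s1_of_mem {t : ℝ} (h0 : 0 < t) (h1 : t < 1) : s1 t = 1 / 2 - t := by
  have hf : Int.fract t = t := Int.fract_eq_self.mpr ⟨h0.le, h1⟩
  unfold s1
  rw [hf, if_neg h0.ne']

lemma V_le {t : ℝ} (h0 : 0 < t) (h1 : t < 1) :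
    s1 t - (F.map (fun p : ℕ => 2 / (p : ℝ) * s1 (p * t))).sum ≤ 1 / 2 - 1 / 1000000 := by
  rw [s1_of_mem h0 h1]
  simp only [F, List.map_cons, List.map_nil, List.sum_cons, List.sum_nil, add_zero]
  push_cast
  by_cases hT : 76 / 100000 ≤ t
  · have g := fun p : ℝ => neg_s1_le_half (p * t)
    have g1 := g 2003
    have g2 := g 13469
    have g3 := g 17137
    have g4 := g 18713
    have g5 := g 36761
    have g6 := g 54371
    have g7 := g 54709
    linarith
  · push Not at hT
    -- the minimising prime
    set c : ℕ → ℕ := fun p => ⌈(p : ℝ) * t⌉₊ with hc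
    obtain ⟨q, hqF, hqmin⟩ := Finset.exists_min_image F.toFinset
      (fun p : ℕ => (c p : ℝ) / p) ⟨2003, by decide⟩
    have hqF' : q ∈ F := List.mem_toFinset.mp hqF
    have hFpos : ∀ p ∈ F, 1 ≤ p := by decide
    have hFle : ∀ p ∈ F, p ≤ 54709 := by decide
    have hq1 : 1 ≤ q := hFpos q hqF'
    have hq0 : (0 : ℝ) < q := by exact_mod_cast hq1
    set n : ℕ := c q with hn
    have hn1 : 1 ≤ n := by
      rw [hn, hc]
      exact Nat.one_le_iff_ne_zero.mpr (Nat.ceil_pos.mpr (by positivity)).ne'
    have hqt : (q : ℝ) * t ≤ n := Nat.le_ceil _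
    have hn42 : n ≤ 42 := by
      have h2 : (q : ℝ) ≤ 54709 := by exact_mod_cast hFle q hqF'
      rw [hn, hc]
      apply Nat.ceil_le.mpr
      push_cast
      nlinarith
    have hd : ∀ p ∈ F, ((dd q n p : ℕ) : ℝ) < p * t + 1 := by
      intro p hp
      have hp1 : 1 ≤ p := hFpos p hp
      have hp0 : (0 : ℝ) < p := by exact_mod_cast hp1
      have h2 := hqmin p (List.mem_toFinset.mpr hp)
      rw [div_le_div_iff₀ hq0 hp0] at h2
      have h3 : n * p ≤ c p * q := by exact_mod_cast h2
      have h4 : dd q n p ≤ c p := by
        unfold dd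
        apply Nat.lt_succ_iff.mp
        rw [Nat.div_lt_iff_lt_mul (by omega)]
        have : (c p).succ * q = c p * q + q := by rw [Nat.succ_mul]
        rw [this]
        have : p * n = n * p := mul_comm _ _
        omega
      have h5 : ((c p : ℕ) : ℝ) < p * t + 1 := Nat.ceil_lt_add_one (by positivity)
      have h6 : ((dd q n p : ℕ) : ℝ) ≤ (c p : ℝ) := by exact_mod_cast h4
      linarith
    have hck := chk_mem hqF' hn1 hn42
    unfold chk at hck
    rw [Nat.ble_eq] at hck
    have hck' := real_ineq (n : ℝ) (q : ℝ) (dd q n 2003 : ℝ) (dd q n 13469 : ℝ) (dd q n 17137 : ℝ) (dd q n 18713 : ℝ) (dd q n 36761 : ℝ) (dd q n 54371 : ℝ) (dd q n 54709 : ℝ) hq0 (by exact_mod_cast hck)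
    have htn : t ≤ n / q := by
      rw [le_div_iff₀ hq0]
      linarith
    have e1 := neg_s1_le' ((2003 : ℝ) * t) (dd q n 2003) (by have := hd 2003 (by decide); exact_mod_cast this)
    have e2 := neg_s1_le' ((13469 : ℝ) * t) (dd q n 13469) (by have := hd 13469 (by decide); exact_mod_cast this)
    have e3 := neg_s1_le' ((17137 : ℝ) * t) (dd q n 17137) (by have := hd 17137 (by decide); exact_mod_cast this)
    have e4 := neg_s1_le' ((18713 : ℝ) * t) (dd q n 18713) (by have := hd 18713 (by decide); exact_mod_cast this)
    have e5 := neg_s1_le' ((36761 : ℝ) * t) (dd q n 36761) (by have := hd 36761 (by decide); exact_mod_cast this)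
    have e6 := neg_s1_le' ((54371 : ℝ) * t) (dd q n 54371) (by have := hd 54371 (by decide); exact_mod_cast this)
    have e7 := neg_s1_le' ((54709 : ℝ) * t) (dd q n 54709) (by have := hd 54709 (by decide); exact_mod_cast this)
    linarith

lemma prime_F : ∀ p ∈ F, Nat.Prime p := by
  intro p hp
  simp only [F, List.mem_cons, List.not_mem_nil, or_false] at hp
  rcases hp with h | h | h | h | h | h | h <;> rw [h] <;> norm_num

end Pool.Agent.Lib.MP_f29d01_nt
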